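import Pool.Agent.H68.LampNT

namespace Pool.Agent.Results.MP_e5c236_nt.FourFive
open Finset

/-- `n` is a sum of exactly `t` positive integers whose product is a `k`-th power -/
def Rep (k t n : ℕ) : Prop :=
  ∃ x : Fin t → ℕ, (∀ i, 0 < x i) ∧ ∑ i, x i = n ∧ ∃ w : ℕ, 0 < w ∧ ∏ i, x i = w ^ k

/-- the least positive `s` such that every large `n` is `t`-representable for some `t ≤ s` -/
noncomputable def G (k : ℕ) : ℕ :=
  sInf {s : ℕ | 0 < s ∧ ∃ N : ℕ, ∀ n ≥ N, ∃ t, 0 < t ∧ t ≤ s ∧ Rep k t n}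

lemma r1 (t w : ℕ) (ht : 0 < t) (hw : 0 < w) : Rep 4 5 (7 * t + 4 * w ^ 4) := by
  refine ⟨![t, t, t, 4 * t, 4 * w ^ 4], fun i => ?_, ?_, 2 * t * w, by positivity, ?_⟩
  · fin_cases i <;> simp <;> positivity
  · simp [Fin.sum_univ_succ]; ring
  · simp [Fin.prod_univ_succ]; ring

lemma r2 (t w : ℕ) (ht : 0 < t) (hw : 0 < w) : Rep 4 5 (7 * t + 216 * w ^ 4) := by
  refine ⟨![t, t, 2 * t, 3 * t, 216 * w ^ 4], fun i => ?_, ?_, 6 * t * w, by positivity, ?_⟩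
  · fin_cases i <;> simp <;> positivity
  · simp [Fin.sum_univ_succ]; ring
  · simp [Fin.prod_univ_succ]; ring

lemma five (n : ℕ) (hn : 20000 ≤ n) : Rep 4 5 n := by
  have h : n % 7 = 0 ∨ n % 7 = 1 ∨ n % 7 = 2 ∨ n % 7 = 3 ∨ n % 7 = 4 ∨ n % 7 = 5 ∨ n % 7 = 6 := by
    omega
  rcases h with h | h | h | h | h | h | h
  · convert r1 ((n - 9604) / 7) 7 (by omega) (by omega) using 1; omega
  · convert r1 ((n - 64) / 7) 2 (by omega) (by omega) using 1; omega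
  · convert r1 ((n - 324) / 7) 3 (by omega) (by omega) using 1; omega
  · convert r2 ((n - 17496) / 7) 3 (by omega) (by omega) using 1; omega
  · convert r1 ((n - 4) / 7) 1 (by omega) (by omega) using 1; omega
  · convert r2 ((n - 3456) / 7) 2 (by omega) (by omega) using 1; omega
  · convert r2 ((n - 216) / 7) 1 (by omega) (by omega) using 1; omega

lemma three (n t : ℕ) (ht0 : 0 < t) (ht : t ≤ 3) (h : Rep 4 t n) :
    ∃ w x y : ℕ, 0 < w ∧ w ^ 4 ≤ n ^ 3 ∧ x ∣ w ^ 4 ∧ y ∣ w ^ 4 ∧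
      (n = x ∨ n = x + y ∨ n = x + y + w ^ 4 / (x * y)) := by
  obtain ⟨x, h0, h1, w, hw, h2⟩ := h
  interval_cases t
  · simp only [Fin.sum_univ_one, Fin.prod_univ_one] at h1 h2
    refine ⟨w, x 0, x 0, hw, ?_, by rw [h2], by rw [h2], Or.inl h1.symm⟩
    rw [← h2, h1]; exact Nat.le_self_pow (by norm_num) _
  · simp only [Fin.sum_univ_two, Fin.prod_univ_two] at h1 h2
    refine ⟨w, x 0, x 1, hw, ?_, ⟨_, h2.symm⟩, ⟨x 0, by rw [← h2, mul_comm]⟩,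
      Or.inr (Or.inl h1.symm)⟩
    have := h0 0
    calc w ^ 4 = x 0 * x 1 * 1 := by rw [h2, mul_one]
      _ ≤ n * n * n := by gcongr <;> omega
      _ = n ^ 3 := by ring
  · simp only [Fin.sum_univ_three, Fin.prod_univ_three] at h1 h2
    refine ⟨w, x 0, x 1, hw, ?_, ⟨x 1 * x 2, by rw [← h2]; ring⟩, ⟨x 0 * x 2, by rw [← h2]; ring⟩,
      Or.inr (Or.inr ?_)⟩
    · calc w ^ 4 = x 0 * x 1 * x 2 := h2.symm
        _ ≤ n * n * n := by gcongr <;> omega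
        _ = n ^ 3 := by ring
    · rw [← h2, Nat.mul_div_cancel_left _ (Nat.mul_pos (h0 0) (h0 1)), h1]

lemma lower (N : ℕ) (h : ∀ n ≥ N, ∃ t, 0 < t ∧ t ≤ 3 ∧ Rep 4 t n) : False := by
  classical
  obtain ⟨C, hC1, hC⟩ := Pool.Agent.H68.RF.div_bound 48 (by norm_num)
  set M := 3 * C ^ 2 + N + 1 with hM
  set f : ℕ → ℕ × ℕ → Finset ℕ := fun w p => {p.1, p.1 + p.2, p.1 + p.2 + w ^ 4 / (p.1 * p.2)}
    with hf
  have hsub : Ioc N (M ^ 8) ⊆ (Ioc 0 (M ^ 6)).biUnion fun w =>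
      ((w ^ 4).divisors ×ˢ (w ^ 4).divisors).biUnion (f w) := by
    intro n hn
    obtain ⟨h1, h2⟩ := Finset.mem_Ioc.1 hn
    obtain ⟨t, h3, h4, h5⟩ := h n h1.le
    obtain ⟨w, x, y, hw, h6, h7, h8, h9⟩ := three n t h3 h4 h5
    have hw4 : w ^ 4 ≠ 0 := by positivity
    refine Finset.mem_biUnion.2 ⟨w, Finset.mem_Ioc.2 ⟨hw, ?_⟩, Finset.mem_biUnion.2 ⟨(x, y),
      Finset.mem_product.2 ⟨Nat.mem_divisors.2 ⟨h7, hw4⟩, Nat.mem_divisors.2 ⟨h8, hw4⟩⟩, ?_⟩⟩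
    · have : w ^ 4 ≤ (M ^ 6) ^ 4 := h6.trans (by
        calc n ^ 3 ≤ (M ^ 8) ^ 3 := by gcongr
          _ = _ := by ring)
      exact (Nat.pow_le_pow_iff_left (by norm_num)).1 this
    · simpa [hf] using h9
  have hd : ∀ w ∈ Ioc 0 (M ^ 6),
      (((w ^ 4).divisors ×ˢ (w ^ 4).divisors).biUnion (f w)).card ≤ C ^ 2 * M * 3 := by
    intro w hw
    refine (Finset.card_biUnion_le_card_mul _ _ 3 (fun p _ => Finset.card_le_three)).trans ?_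
    refine Nat.mul_le_mul_right _ ?_
    rw [Finset.card_product]
    have h1 := hC (w ^ 4)
    have h2 := (Finset.mem_Ioc.1 hw).2
    have : ((w ^ 4).divisors.card * (w ^ 4).divisors.card) ^ 24 ≤ (C ^ 2 * M) ^ 24 := by
      calc _ = (w ^ 4).divisors.card ^ 48 := by ring
        _ ≤ C ^ 48 * w ^ 4 := h1
        _ ≤ C ^ 48 * (M ^ 6) ^ 4 := by gcongr
        _ = _ := by ring
    exact (Nat.pow_le_pow_iff_left (by norm_num)).1 this
  have h1 := (Finset.card_le_card hsub).trans (Finset.card_biUnion_le_card_mul _ _ _ hd)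
  rw [Nat.card_Ioc, Nat.card_Ioc, Nat.sub_zero] at h1
  have h2 : M ^ 8 = M ^ 6 * (C ^ 2 * M * 3) + M ^ 7 * (N + 1) := by
    rw [pow_succ M 7]; nth_rewrite 2 [hM]; ring
  have h3 : 0 < M ^ 7 := by positivity
  have h4 : N + 1 ≤ M ^ 7 * (N + 1) := Nat.le_mul_of_pos_left _ h3
  omega

theorem result : 4 ≤ G 4 ∧ G 4 ≤ 5 := by
  have h5 : 5 ∈ {s : ℕ | 0 < s ∧ ∃ N : ℕ, ∀ n ≥ N, ∃ t, 0 < t ∧ t ≤ s ∧ Rep 4 t n} :=
    ⟨by norm_num, 20000, fun n hn => ⟨5, by norm_num, le_rfl, five n hn⟩⟩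
  refine ⟨?_, Nat.sInf_le h5⟩
  obtain ⟨_, N, hN⟩ := Nat.sInf_mem ⟨5, h5⟩
  by_contra hc
  refine lower N fun n hn => ?_
  obtain ⟨t, h1, h2, h3⟩ := hN n hn
  exact ⟨t, h1, by unfold G at hc; omega, h3⟩

end Pool.Agent.Results.MP_e5c236_nt.FourFive
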